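import Pool.Agent.Helper89.GP.GoalsB

/-!
# Two comparisons halve the number of linear extensions: HLF

At distance two with probability at most one half.
-/

namespace Pool.Agent.Helper9.GP

open Finset Pool.Agent.Helper89.GP

noncomputable section

variable {n : ℕ} {R : Fin n → Fin n → Prop}

/-- Exchange the elements in the positions `k`, `k + 1`. -/
def ps (σ : Equiv.Perm (Fin n)) (k : ℕ) : Equiv.Perm (Fin n) :=
  if h : k + 1 < n then
    σ.trans (Equiv.swap ⟨k, Nat.lt_of_succ_lt h⟩ ⟨k + 1, h⟩)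
  else σ

theorem po_ps (σ : Equiv.Perm (Fin n)) {k : ℕ} (h : k + 1 < n) (c : Fin n) :
    po (ps σ k) c = if po σ c = k then k + 1 else if po σ c = k + 1 then k else po σ c := by
  unfold ps po
  rw [dif_pos h, Equiv.trans_apply, Equiv.swap_apply_def]
  by_cases h1 : σ c = ⟨k, Nat.lt_of_succ_lt h⟩
  · rw [if_pos h1, if_pos (by rw [h1])]
  · rw [if_neg h1, if_neg (fun h2 => h1 (Fin.ext h2))]
    by_cases h3 : σ c = ⟨k + 1, h⟩
    · rw [if_pos h3, if_pos (by rw [h3])]
    · rw [if_neg h3, if_neg (fun h2 => h3 (Fin.ext h2))]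

theorem ps_ps (σ : Equiv.Perm (Fin n)) (k : ℕ) : ps (ps σ k) k = σ := by
  unfold ps
  split_ifs with h
  · ext c
    simp
  · rfl

theorem perm_ext {σ π : Equiv.Perm (Fin n)} (h : ∀ c, po σ c = po π c) : σ = π := by
  ext c
  exact h c

theorem ps_mem {σ : Equiv.Perm (Fin n)} (hσ : σ ∈ LX R) {k : ℕ} (h : k + 1 < n)
    (hR : ∀ a b, po σ a = k → po σ b = k + 1 → ¬ R a b) : ps σ k ∈ LX R := by
  rw [mem_LX] at hσ ⊢
  intro a b hab
  have h1 : po σ a < po σ b := hσ a b hab
  change po (ps σ k) a < po (ps σ k) b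
  rw [po_ps σ h, po_ps σ h]
  by_cases ha : po σ a = k
  · by_cases hb : po σ b = k + 1
    · exact absurd hab (hR a b ha hb)
    · rw [if_pos ha]
      split_ifs <;> omega
  · rw [if_neg ha]
    split_ifs <;> omega

theorem not_rel {σ : Equiv.Perm (Fin n)} (hσ : σ ∈ LX R) {a b : Fin n} (h : po σ a ≤ po σ b) :
    ¬ R b a := by
  intro h1
  have h2 : po σ b < po σ a := mem_LX.1 hσ b a h1
  omega

section Count

variable (R) (u v : Fin n) (S : Equiv.Perm (Fin n) → Prop)

/-- The linear extensions with `v` exactly `k` places after `u` and with `S`. -/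
def DD (k : ℕ) : Finset (Equiv.Perm (Fin n)) := by
  classical exact (LX R).filter fun σ => po σ v = po σ u + k ∧ S σ

variable {R u v S}

theorem mem_DD {k : ℕ} {σ : Equiv.Perm (Fin n)} :
    σ ∈ DD R u v S k ↔ σ ∈ LX R ∧ po σ v = po σ u + k ∧ S σ := by
  classical
  unfold DD
  simp only [mem_filter]

theorem main_count (hInc : Inc R u v)
    (hS1 : ∀ σ, po σ v = po σ u + 2 → S σ → S (ps σ (po σ u + 1)) ∧ S (ps σ (po σ u)))
    (hS3 : ∀ π, po π v = po π u + 1 → po π v + 1 < n → 0 < po π u → S (ps π (po π v)) →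
      S (ps π (po π u - 1)) → S (ps (ps π (po π v)) (po π u - 1))) :
    (DD R u v S 2).card ≤ (DD R u v S 1).card + (DD R u v S 3).card := by
  classical
  have hvu : ¬ ∀ σ ∈ LX R, po σ u < po σ v := by
    intro h
    obtain ⟨σ, h1, h2⟩ := hInc.2
    have := h σ h1
    omega
  have hnt : ∀ t, R u t → R t v → False := by
    intro t h1 h2
    apply hvu
    intro σ hσ
    have h3 : po σ u < po σ t := mem_LX.1 hσ u t h1
    have h4 : po σ t < po σ v := mem_LX.1 hσ t v h2
    omega
  set RT : Equiv.Perm (Fin n) → Prop := fun σ => ∃ t, po σ t = po σ u + 1 ∧ R t v with hRT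
  set E1 := (DD R u v S 2).filter (fun σ => ¬ RT σ) with hE1
  set E2 := (DD R u v S 2).filter (fun σ => RT σ) with hE2
  set φ1 : Equiv.Perm (Fin n) → Equiv.Perm (Fin n) := fun σ => ps σ (po σ u + 1) with hφ1
  set φ2 : Equiv.Perm (Fin n) → Equiv.Perm (Fin n) := fun σ => ps σ (po σ u) with hφ2
  have hcard : E2.card + E1.card = (DD R u v S 2).card := by
    rw [hE1, hE2]
    exact Finset.card_filter_add_card_filter_not _
  -- positions after the maps
  have pos1 : ∀ σ, po σ v = po σ u + 2 → po (φ1 σ) u = po σ u ∧ po (φ1 σ) v = po σ u + 1 := by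
    intro σ h
    have hn := po_lt_n σ v
    rw [hφ1]
    simp only
    rw [po_ps σ (by omega), po_ps σ (by omega)]
    constructor
    · rw [if_neg (by omega), if_neg (by omega)]
    · rw [if_neg (by omega), if_pos (by omega)]
  have pos2 : ∀ σ, po σ v = po σ u + 2 → po (φ2 σ) u = po σ u + 1 ∧ po (φ2 σ) v = po σ u + 2 := by
    intro σ h
    have hn := po_lt_n σ v
    rw [hφ2]
    simp only
    rw [po_ps σ (by omega), po_ps σ (by omega)]
    constructor
    · rw [if_pos rfl]
    · rw [if_neg (by omega), if_neg (by omega)]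
      omega
  have inv1 : ∀ σ, po σ v = po σ u + 2 → ps (φ1 σ) (po (φ1 σ) v) = σ := by
    intro σ h
    rw [(pos1 σ h).2, hφ1]
    exact ps_ps _ _
  have inv2 : ∀ σ, po σ v = po σ u + 2 → ps (φ2 σ) (po (φ2 σ) u - 1) = σ := by
    intro σ h
    rw [(pos2 σ h).1, hφ2]
    simp only [Nat.add_sub_cancel]
    exact ps_ps _ _
  have inj1 : Set.InjOn φ1 (E1 : Set (Equiv.Perm (Fin n))) := by
    intro σ hσ τ hτ h
    have h1 := (mem_DD.1 (mem_filter.1 (mem_coe.1 hσ)).1).2.1
    have h2 := (mem_DD.1 (mem_filter.1 (mem_coe.1 hτ)).1).2.1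
    rw [← inv1 σ h1, ← inv1 τ h2, h]
  have inj2 : Set.InjOn φ2 (E2 : Set (Equiv.Perm (Fin n))) := by
    intro σ hσ τ hτ h
    have h1 := (mem_DD.1 (mem_filter.1 (mem_coe.1 hσ)).1).2.1
    have h2 := (mem_DD.1 (mem_filter.1 (mem_coe.1 hτ)).1).2.1
    rw [← inv2 σ h1, ← inv2 τ h2, h]
  have img1 : E1.image φ1 ⊆ DD R u v S 1 := by
    intro π hπ
    obtain ⟨σ, hσ, rfl⟩ := mem_image.1 hπ
    obtain ⟨h1, h2⟩ := mem_filter.1 hσ
    obtain ⟨h3, h4, h5⟩ := mem_DD.1 h1
    have hn := po_lt_n σ v
    rw [mem_DD]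
    refine ⟨ps_mem h3 (by omega) ?_, by rw [(pos1 σ h4).1, (pos1 σ h4).2], (hS1 σ h4 h5).1⟩
    intro a b ha hb hab
    have hbv : b = v := (po_inj (σ := σ)).1 (by omega)
    subst hbv
    exact h2 ⟨a, ha, hab⟩
  have img2 : E2.image φ2 ⊆ DD R u v S 1 := by
    intro π hπ
    obtain ⟨σ, hσ, rfl⟩ := mem_image.1 hπ
    obtain ⟨h1, t, ht, h2⟩ := mem_filter.1 hσ
    obtain ⟨h3, h4, h5⟩ := mem_DD.1 h1
    have hn := po_lt_n σ v
    rw [mem_DD]
    refine ⟨ps_mem h3 (by omega) ?_, by rw [(pos2 σ h4).1, (pos2 σ h4).2], (hS1 σ h4 h5).2⟩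
    intro a b ha hb hab
    have hau : a = u := po_inj.1 ha
    have hbt : b = t := (po_inj (σ := σ)).1 (by omega)
    subst hau hbt
    exact hnt _ hab h2
  set I1 := E1.image φ1 with hI1
  set I2 := E2.image φ2 with hI2
  have c1 : I1.card = E1.card := Finset.card_image_of_injOn inj1
  have c2 : I2.card = E2.card := Finset.card_image_of_injOn inj2
  have c3 : (I1 ∪ I2).card + (I1 ∩ I2).card = I1.card + I2.card :=
    Finset.card_union_add_card_inter I1 I2
  have c4 : (I1 ∪ I2).card ≤ (DD R u v S 1).card :=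
    Finset.card_le_card (Finset.union_subset img1 img2)
  -- the description of the intersection
  have hint : ∀ π ∈ I1 ∩ I2, π ∈ LX R ∧ po π v = po π u + 1 ∧ po π v + 1 < n ∧ 0 < po π u ∧
      ps π (po π v) ∈ LX R ∧ S (ps π (po π v)) ∧ S (ps π (po π u - 1)) ∧
      (∀ s, po π s + 1 = po π u → ¬ R s u) := by
    intro π hπ
    obtain ⟨hπ1, hπ2⟩ := mem_inter.1 hπ
    obtain ⟨h10, h11, -⟩ := mem_DD.1 (img1 hπ1)
    obtain ⟨σ, hσ, hσπ⟩ := mem_image.1 hπ1
    obtain ⟨τ, hτ, hτπ⟩ := mem_image.1 hπ2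
    obtain ⟨h3, h4, h5⟩ := mem_DD.1 (mem_filter.1 hσ).1
    obtain ⟨h6, h7, h8⟩ := mem_DD.1 (mem_filter.1 hτ).1
    have e1 := inv1 σ h4
    have e2 := inv2 τ h7
    have p1 := pos1 σ h4
    have p2 := pos2 τ h7
    rw [hσπ] at e1 p1
    rw [hτπ] at e2 p2
    have hn := po_lt_n σ v
    refine ⟨h10, h11, by omega, by omega, by rw [e1]; exact h3, by rw [e1]; exact h5,
      by rw [e2]; exact h8, ?_⟩
    intro s hs
    -- in `τ` the order is `u s`
    have hs1 : po τ s = po π u := by
      have := po_ps π (k := po π u - 1) (by omega) s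
      rw [e2, if_pos (by omega)] at this
      omega
    exact not_rel h6 (by omega)
  have c5 : (I1 ∩ I2).card ≤ (DD R u v S 3).card := by
    apply Finset.card_le_card_of_injOn (fun π => ps (ps π (po π v)) (po π u - 1))
    · intro π hπ
      obtain ⟨h1, h2, h3, h4, h5, h6, h7, h8⟩ := hint π (mem_coe.1 hπ)
      have q : ∀ c, po (ps π (po π v)) c = if po π c = po π v then po π v + 1 else
          if po π c = po π v + 1 then po π v else po π c := fun c => po_ps π h3 c
      have hn := po_lt_n π v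
      rw [mem_coe, mem_DD]
      refine ⟨ps_mem h5 (by omega) ?_, ?_, hS3 π h2 h3 h4 h6 h7⟩
      · intro a b ha hb
        have hbu : po π b = po π u := by
          have := q b
          split_ifs at this <;> omega
        have hbu' : b = u := po_inj.1 hbu
        subst hbu'
        apply h8
        have := q a
        split_ifs at this <;> omega
      · change po (ps (ps π (po π v)) (po π u - 1)) v = po (ps (ps π (po π v)) (po π u - 1)) u + 3
        rw [po_ps _ (by omega) v, po_ps _ (by omega) u, q u, q v]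
        split_ifs <;> omega
    · intro π hπ ρ hρ h
      obtain ⟨h1, h2, h3, h4, h5, h6, h7, h8⟩ := hint π (mem_coe.1 hπ)
      obtain ⟨g1, g2, g3, g4, g5, g6, g7, g8⟩ := hint ρ (mem_coe.1 hρ)
      simp only at h
      have hu : po (ps (ps π (po π v)) (po π u - 1)) u = po π u - 1 := by
        rw [po_ps _ (by omega), po_ps _ (by omega)]
        split_ifs <;> omega
      have hu' : po (ps (ps ρ (po ρ v)) (po ρ u - 1)) u = po ρ u - 1 := by
        rw [po_ps _ (by omega), po_ps _ (by omega)]
        split_ifs <;> omega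
      have huu : po π u = po ρ u := by
        rw [h, hu'] at hu
        omega
      have hvv : po π v = po ρ v := by omega
      rw [huu, hvv] at h
      have h9 := congrArg (fun x => ps x (po ρ u - 1)) h
      simp only [ps_ps] at h9
      have h10 := congrArg (fun x => ps x (po ρ v)) h9
      simp only [ps_ps] at h10
      exact h10
  omega

theorem half_count (hInc : Inc R u v)
    (hS1 : ∀ σ, po σ v = po σ u + 2 → S σ → S (ps σ (po σ u + 1)) ∧ S (ps σ (po σ u)))
    (hS3 : ∀ π, po π v = po π u + 1 → po π v + 1 < n → 0 < po π u → S (ps π (po π v)) →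
      S (ps π (po π u - 1)) → S (ps (ps π (po π v)) (po π u - 1))) :
    2 * Pr R (fun σ => po σ v = po σ u + 2 ∧ S σ) ≤ Pr R (fun σ => po σ u < po σ v ∧ S σ) := by
  classical
  have h1 := main_count hInc hS1 hS3
  have h2 : (DD R u v S 1).card + (DD R u v S 2).card + (DD R u v S 3).card ≤
      ((LX R).filter (fun σ => po σ u < po σ v ∧ S σ)).card := by
    rw [← Finset.card_union_of_disjoint, ← Finset.card_union_of_disjoint]
    · apply Finset.card_le_card
      intro σ hσ
      rw [mem_filter]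
      rcases mem_union.1 hσ with h | h
      · rcases mem_union.1 h with h | h
        · obtain ⟨a, b, c⟩ := mem_DD.1 h
          exact ⟨a, by omega, c⟩
        · obtain ⟨a, b, c⟩ := mem_DD.1 h
          exact ⟨a, by omega, c⟩
      · obtain ⟨a, b, c⟩ := mem_DD.1 h
        exact ⟨a, by omega, c⟩
    · rw [Finset.disjoint_left]
      intro σ h g
      obtain ⟨a', b', c'⟩ := mem_DD.1 g
      rcases mem_union.1 h with h | h
      · obtain ⟨a, b, c⟩ := mem_DD.1 h
        omega
      · obtain ⟨a, b, c⟩ := mem_DD.1 h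
        omega
    · rw [Finset.disjoint_left]
      intro σ h g
      obtain ⟨a', b', c'⟩ := mem_DD.1 g
      obtain ⟨a, b, c⟩ := mem_DD.1 h
      omega
  rw [Pr_def, Pr_def, ← mul_div_assoc]
  apply div_le_div_of_nonneg_right _ (Nat.cast_nonneg _)
  have h3 : (DD R u v S 2).card = ((LX R).filter (fun σ => po σ v = po σ u + 2 ∧ S σ)).card := by
    unfold DD
    congr
  rw [← h3]
  exact_mod_cast (by omega : 2 * (DD R u v S 2).card ≤
    ((LX R).filter (fun σ => po σ u < po σ v ∧ S σ)).card)

end Count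

/-- HLF. -/
theorem hlf : HlfStmt := by
  intro n R u v h
  refine ⟨fun w => ?_, fun w => ?_, ?_⟩
  · apply half_count (S := fun σ => po σ v < po σ w) h
    · intro σ h1 h2
      have hn := po_lt_n σ v
      rw [po_ps _ (by omega), po_ps _ (by omega), po_ps _ (by omega), po_ps _ (by omega)]
      constructor
      · split_ifs <;> omega
      · split_ifs <;> omega
    · intro π h1 h2 h3 h4 h5
      rw [po_ps _ (by omega), po_ps _ (by omega)] at h4
      rw [po_ps _ (by omega), po_ps _ (by omega), po_ps _ (by omega), po_ps _ (by omega)]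
      split_ifs at h4 ⊢ <;> omega
  · have h1 := half_count (R := R) (u := u) (v := v) (S := fun σ => po σ w < po σ u) h (by
      intro σ h1 h2
      have hn := po_lt_n σ v
      rw [po_ps _ (by omega), po_ps _ (by omega), po_ps _ (by omega), po_ps _ (by omega)]
      constructor
      · split_ifs <;> omega
      · split_ifs <;> omega) (by
      intro π h1 h2 h3 h4 h5
      rw [po_ps _ (by omega), po_ps _ (by omega)] at h5
      rw [po_ps _ (by omega), po_ps _ (by omega), po_ps _ (by omega), po_ps _ (by omega)]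
      split_ifs at h5 ⊢ <;> omega)
    have e1 : db R w u v = Pr R (fun σ => po σ v = po σ u + 2 ∧ po σ w < po σ u) :=
      Pr_congr fun σ _ => by tauto
    have e2 : Ms R w u v = Pr R (fun σ => po σ u < po σ v ∧ po σ w < po σ u) :=
      Pr_congr fun σ _ => by tauto
    rw [e1, e2]
    exact h1
  · have h1 := half_count (R := R) (u := u) (v := v) (S := fun _ => True) h
      (fun _ _ _ => ⟨trivial, trivial⟩) (fun _ _ _ _ _ _ => trivial)
    have e1 : bq R u v 1 = Pr R (fun σ => po σ v = po σ u + 2 ∧ True) :=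
      Pr_congr fun σ _ => by simp
    have e2 : (Pr R fun σ => po σ u < po σ v) = Pr R (fun σ => po σ u < po σ v ∧ True) :=
      Pr_congr fun σ _ => by simp
    rw [e1, e2]
    exact h1

end

end Pool.Agent.Helper9.GP
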